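import Pool.Agent.H992.BE.Rob

/-!
# Berry's conjecture for billiards: averages over energies and one tiny disc (MP_6b977f_mp)

The plane is `ℂ`. `C(ℂ, ℝ)` is the space of continuous functions with the topology of locally
uniform convergence (the metric of the problem) and its Borel sets. The setting:

* `IsEigenSequence Ω lam u`: `u n` are smooth real solutions of `Δu + λ_n u = 0` in the open set `Ω`
  of finite area, each of them bounded, `0 < λ_n → ∞`, `∫_Ω u_n² ≤ C`. No boundary condition, no
  ergodicity and no regularity of the boundary is used.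
* `localWave Ω χ λ u z₀` is the function `z ↦ u(z₀ + z/√λ) χ(|z| / (√λ dist(z₀, ∂Ω)))`,
  `IsLocalLimit Ω χ lam u μ` says that the law `μ` on `C(ℂ, ℝ)` is the weak limit, along a
  subsequence, of the local measures `m_n = |Ω|⁻¹ ∫_Ω δ_(localWave z₀) dz₀`, `localMean … G` is
  `∫ G dm_n` and `energyMean … N G` the mean `(1/N) ∑_{n < N} ∫ G dm_n` over the energies.
* `MW` is the space of the smooth `f` with `Δf + f = 0`, `toC` its inclusion in `C(ℂ, ℝ)`,
  `IsRandomWave γ` says that `γ` is the law `μ_RMW` of the centred Gaussian field on `MW` with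
  covariance `J₀(|x - y|)`, `jet x` is the σ-algebra of the derivatives of all orders at `x`.
* `FullDensity σ`: the proportion of the integers `< N` in the range of `σ` tends to `1`.
  `OnlyLimit γ Ω χ lam u σ`: a law is a limit point of the local measures along `σ` if and only if
  it is `μ_RMW`.
* `AsympAbsCont γ U E`: for every `ε` there is `δ` such that all continuous functions `Φ` with
  values in `[0, 1]` of finitely many values `f(w_j)`, `w_j ∈ U`, with `∫ Φ dγ ≤ δ` satisfy
  `E_n Φ ≤ ε` for large `n`. It holds for instance if `limsup E_n Φ ≤ C ∫ Φ dγ`, an upper bound of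
  the joint laws of values in `U` up to a constant.
* `WeakBound γ U δ η E` is a single inequality of this kind: `∫ Φ dγ ≤ δ` implies
  `limsup E_n Φ ≤ η`.

The theorem: (1) compactness and structure of all limit points, of the local measures and of their
averages over energies. (2) One weak inequality in an arbitrarily small disc gives the random wave
a definite proportion. (3) THE CONCLUSION OF BERRY'S CONJECTURE FOR `Ω` (a subsequence of full
density with `μ_RMW` as the only limit point) IS EQUIVALENT TO THE CONVERGENCE OF THE AVERAGES OVER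
ENERGIES TO `μ_RMW`, AND TO AN UPPER BOUND OF THESE AVERAGES IN ONE ARBITRARILY SMALL DISC.

Proof idea. Elliptic regularity in the form of a reproducing kernel gives tightness (Prokhorov).
Limits of all kinds of averages are laws of stationary waves. For these the values in a small disc
decide everything: the Taylor series at a point converges almost surely (spectral measure on the
circle), so singularity to `γ` is visible on `jet x`, and `γ` is mixing, so it is the only
absolutely continuous stationary law. Since `γ` is ergodic it is extremal: the average of `m_n` over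
any set of indices `n < N` of positive density also tends to `γ`, and this gives the full density
subsequence (Koopman - von Neumann lemma for countably many characters).
-/

set_option autoImplicit false
open MeasureTheory Filter Topology Complex ProbabilityTheory
open scoped ContDiff ENNReal NNReal

namespace Pool.Agent.Results.MP_6b977f_mp.EnergyAverages

open Pool.Agent.K3h40.EC.Loc (localWave IsCutoff IsLocalLimit)
open Pool.Agent.N661.BR (MW IsStationary IsRandomWave)
open Pool.Agent.H992.LB (jet)
open Pool.Agent.H992.BE (IsEigenSequence localMean energyMean toC FullDensity OnlyLimit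
  AsympAbsCont WeakBound)

/-- `μ` is a weak limit, along a subsequence, of the averages `(1/N) ∑_{n < N} m_n` of the local
measures over the energies -/
def IsEnergyLimit [MeasurableSpace C(ℂ, ℝ)] (Ω : Set ℂ) (χ : ℝ → ℝ) (lam : ℕ → ℝ)
    (u : ℕ → ℂ → ℝ) (μ : Measure C(ℂ, ℝ)) : Prop :=
  ∃ σ : ℕ → ℕ, StrictMono σ ∧ ∀ G : C(ℂ, ℝ) → ℝ, Continuous G → (∃ C, ∀ f, |G f| ≤ C) →
    Tendsto (fun j => energyMean Ω χ lam u (σ j) G) atTop (𝓝 (∫ f, G f ∂μ))

/-- **Berry's conjecture in the mean over energies and in one tiny disc.** Let `u n` be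
eigenfunctions on `Ω` and `γ` the law `μ_RMW` of the random wave.
(1) Every sequence of local measures has a weakly convergent subsequence whose limit is a
probability measure. Every limit point of the local measures, and of their averages over energies,
is the law of a stationary wave, and equal to `p γ + s` with `0 ≤ p ≤ 1` and a stationary measure
`s` which is singular to `γ` on the σ-algebra of the derivatives at every single point.
(2) Let `U` be a nonempty open set, `δ > 0` and let `E` be the sequence of the local means or of the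
energy means. If asymptotically `E_n Φ ≤ η` for all `Φ` (functions of finitely many values in `U`,
with values in `[0, 1]`) with `∫ Φ dγ ≤ δ`, then `liminf E_n G ≥ (1 - η) ∫ G dγ` for all bounded
continuous `G ≥ 0`.
(3) For every nonempty open set `U` the following are equivalent: (a) there is a subsequence of full
density along which `μ_RMW` is the only limit point of the local measures (the conclusion of Q1);
(b) the energy means converge to `μ_RMW`; (c) the energy means are asymptotically absolutely
continuous with respect to `μ_RMW` on `U`. Likewise, `μ_RMW` is the only limit point of the whole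
sequence if and only if the local means are asymptotically absolutely continuous on `U`. -/
theorem result [MeasurableSpace C(ℂ, ℝ)] [BorelSpace C(ℂ, ℝ)] (γ : Measure MW)
    (hγp : IsProbabilityMeasure γ) (hγ : IsRandomWave γ) (Ω : Set ℂ) (χ : ℝ → ℝ)
    (hχ : IsCutoff χ) (lam : ℕ → ℝ) (u : ℕ → ℂ → ℝ) (hu : IsEigenSequence Ω lam u) :
    ((∀ σ : ℕ → ℕ, StrictMono σ → ∃ μ : Measure C(ℂ, ℝ), IsProbabilityMeasure μ ∧
        IsLocalLimit Ω χ (fun j => lam (σ j)) (fun j => u (σ j)) μ) ∧
      ∀ μ : Measure C(ℂ, ℝ), IsProbabilityMeasure μ →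
        (IsLocalLimit Ω χ lam u μ ∨ IsEnergyLimit Ω χ lam u μ) →
        ∃ (ν : Measure MW) (p : ℝ≥0∞) (s : Measure MW), μ = ν.map toC ∧
          IsProbabilityMeasure ν ∧ IsStationary ν ∧ p ≤ 1 ∧ ν = p • γ + s ∧ IsStationary s ∧
          ∀ x : ℂ, ∃ A : Set MW, MeasurableSet[jet x] A ∧ s A = 0 ∧ γ Aᶜ = 0) ∧
    (∀ U : Set ℂ, IsOpen U → U.Nonempty → ∀ δ η : ℝ, 0 < δ → ∀ E : ℕ → (C(ℂ, ℝ) → ℝ) → ℝ,
      (E = (fun n => localMean Ω χ (lam n) (u n)) ∨ E = energyMean Ω χ lam u) →
      WeakBound γ U δ η E → ∀ G : C(ℂ, ℝ) → ℝ, Continuous G → (∃ C, ∀ f, |G f| ≤ C) →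
        (∀ f, 0 ≤ G f) → ∀ ε : ℝ, 0 < ε →
          ∀ᶠ n in atTop, (1 - η) * ∫ f, G (toC f) ∂γ - ε ≤ E n G) ∧
    ∀ U : Set ℂ, IsOpen U → U.Nonempty →
      ((∃ σ : ℕ → ℕ, StrictMono σ ∧ FullDensity σ ∧ OnlyLimit γ Ω χ lam u σ) ↔
        ∀ G : C(ℂ, ℝ) → ℝ, Continuous G → (∃ C, ∀ f, |G f| ≤ C) →
          Tendsto (fun N => energyMean Ω χ lam u N G) atTop (𝓝 (∫ f, G (toC f) ∂γ))) ∧
      ((∃ σ : ℕ → ℕ, StrictMono σ ∧ FullDensity σ ∧ OnlyLimit γ Ω χ lam u σ) ↔
        AsympAbsCont γ U (energyMean Ω χ lam u)) ∧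
      (OnlyLimit γ Ω χ lam u id ↔
        AsympAbsCont γ U (fun n => localMean Ω χ (lam n) (u n))) := by
  obtain ⟨hm, hI⟩ := Pool.Agent.H992.BE.regAll Ω χ lam u hχ hu
  -- (a) → (b)
  have hab : (∃ σ : ℕ → ℕ, StrictMono σ ∧ FullDensity σ ∧ OnlyLimit γ Ω χ lam u σ) →
      ∀ G : C(ℂ, ℝ) → ℝ, Continuous G → (∃ C, ∀ f, |G f| ≤ C) →
        Tendsto (fun N => energyMean Ω χ lam u N G) atTop (𝓝 (∫ f, G (toC f) ∂γ)) := by
    rintro ⟨σ, hσ, hfd, hol⟩ G hG hC
    have h1 := (Pool.Agent.H992.BE.onlyLimit_iff hχ hu hσ).1 hol G hG hC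
    have hb : ∃ C, ∀ n, |∫ f, G f ∂(Pool.Agent.H992.BE.locMeas Ω χ (lam n) (u n))| ≤ C := by
      obtain ⟨C, hC⟩ := hC
      refine ⟨C, fun n => ?_⟩
      haveI := hm.prob n
      have := norm_integral_le_of_norm_le_const
        (μ := Pool.Agent.H992.BE.locMeas Ω χ (lam n) (u n)) (f := G) (C := C)
        (Eventually.of_forall fun f => by rw [Real.norm_eq_abs]; exact hC f)
      haveI h2 : IsProbabilityMeasure (Pool.Agent.H992.BE.locMeas Ω χ (lam n) (u n)) := hm.prob n
      rw [Real.norm_eq_abs, probReal_univ, mul_one] at this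
      exact this
    refine (Pool.Agent.H992.BE.pCes _ hb σ _ hσ hfd h1).congr fun N => ?_
    exact (Pool.Agent.H992.BE.energy_eq hχ hu N hG hC).symm
  -- (b) → (a)
  have hba : (∀ G : C(ℂ, ℝ) → ℝ, Continuous G → (∃ C, ∀ f, |G f| ≤ C) →
      Tendsto (fun N => energyMean Ω χ lam u N G) atTop (𝓝 (∫ f, G (toC f) ∂γ))) →
      ∃ σ : ℕ → ℕ, StrictMono σ ∧ FullDensity σ ∧ OnlyLimit γ Ω χ lam u σ := by
    intro h
    obtain ⟨σ, hσ, hfd, hc⟩ := Pool.Agent.H992.BE.full_density Pool.Agent.H992.BE.pLim
      Pool.Agent.H992.BE.pMW Pool.Agent.H992.BE.pRat Pool.Agent.H992.BE.pKvN hγ hm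
      (fun G hG hC => (h G hG hC).congr fun N => Pool.Agent.H992.BE.energy_eq hχ hu N hG hC)
    exact ⟨σ, hσ, hfd, (Pool.Agent.H992.BE.onlyLimit_iff hχ hu hσ).2 hc⟩
  refine ⟨⟨fun σ hσ => Pool.Agent.H992.BE.exists_limit hχ hu hσ, ?_⟩, ?_, ?_⟩
  · intro μ hμ hl
    have key : ∃ ν : Measure MW, IsProbabilityMeasure ν ∧ μ = ν.map toC ∧ IsStationary ν ∧
        Integrable (fun f : MW => f 0 ^ 2) ν := by
      rcases hl with hl | ⟨σ, hσ, hl⟩
      · exact Pool.Agent.H992.BE.limit_law hχ hu hl
      · obtain ⟨φ, hφ⟩ := Ultrafilter.exists_le (atTop : Filter ℕ)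
        obtain ⟨ν, hν, hst, hi, h⟩ := Pool.Agent.H992.BE.lims_avg hχ hu (φ.map σ)
          ((Filter.map_mono hφ).trans hσ.tendsto_atTop)
        refine ⟨ν, hν, ?_, hst, hi⟩
        haveI : IsFiniteMeasure (ν.map toC) := Measure.isFiniteMeasure_map _ _
        refine Pool.Agent.H992.BE.ext_bc fun G hG hC => ?_
        rw [integral_map Pool.Agent.H992.BE.toC_meas.aemeasurable
          hG.measurable.aestronglyMeasurable]
        exact tendsto_nhds_unique ((hl G hG hC).mono_left hφ) (h G hG hC)
    obtain ⟨ν, hν, hmap, hst, hi⟩ := key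
    obtain ⟨p, s, hp, hadd, hs, hsing⟩ := Pool.Agent.H992.LB.general hγ hst hi
    exact ⟨ν, p, s, hmap, hν, hst, hp, hadd, hs, hsing⟩
  · rintro U hU hne δ η hδ E (rfl | rfl) hW G hG hC h0 ε hε
    · exact Pool.Agent.H992.BE.robust hγ hU hne hδ
        (fun φ hφ => Pool.Agent.H992.BE.lims_one hχ hu φ hφ) hW hG hC h0 ε hε
    · exact Pool.Agent.H992.BE.robust hγ hU hne hδ
        (fun φ hφ => Pool.Agent.H992.BE.lims_avg hχ hu φ hφ) hW hG hC h0 ε hε
  · intro U hU hne
    refine ⟨⟨hab, hba⟩, ⟨fun h => Pool.Agent.H992.BE.uac_of_conv (hab h), fun h => hba ?_⟩, ?_⟩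
    · intro G hG hC
      refine (Pool.Agent.H992.BE.conv_avg Pool.Agent.H992.BE.pLim Pool.Agent.H992.BE.pMW
        Pool.Agent.H992.BE.pAC hγ hm hU hne (Pool.Agent.H992.BE.uac_congr
          (fun N F hF hFC => Pool.Agent.H992.BE.energy_eq hχ hu N hF hFC) h) hG hC).congr
        fun N => (Pool.Agent.H992.BE.energy_eq hχ hu N hG hC).symm
    · rw [Pool.Agent.H992.BE.onlyLimit_iff hχ hu strictMono_id]
      constructor
      · intro h
        refine Pool.Agent.H992.BE.uac_of_conv fun G hG hC => (h G hG hC).congr fun n => ?_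
        exact hI n G hG hC
      · intro h G hG hC
        exact Pool.Agent.H992.BE.conv_one Pool.Agent.H992.BE.pLim Pool.Agent.H992.BE.pMW
          Pool.Agent.H992.BE.pAC hγ hm hU hne (Pool.Agent.H992.BE.uac_congr
            (fun n F hF hFC => (hI n F hF hFC).symm) h) hG hC

end Pool.Agent.Results.MP_6b977f_mp.EnergyAverages
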